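import Pool.Agent.H16.GU.TUP
import Pool.Agent.H30.Vino.Divisor

/-!
Rows DVB and CNX of the board gu.
-/

set_option autoImplicit false

namespace Pool.Agent.H16.GU

open Pool.Agent.H34.GM Pool.Agent.H34.GZ Pool.Agent.H34.GU

theorem pf_DVB : T_DVB := by
  intro ε hε
  obtain ⟨k, hk⟩ := exists_nat_ge (1 / ε)
  obtain ⟨C, hC, h⟩ := Pool.Agent.H30.Vino.card_divisors_pow_le (k + 1)
  have hC1 : (1 : ℝ) ≤ (C : ℝ) := by exact_mod_cast hC
  have hk1 : (0 : ℝ) < ((k + 1 : ℕ) : ℝ) := by positivity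
  refine ⟨(C : ℝ) ^ (1 / ((k + 1 : ℕ) : ℝ)), Real.one_le_rpow hC1 (by positivity), ?_⟩
  intro n hn
  have hn1 : (1 : ℝ) ≤ (n : ℝ) := by exact_mod_cast hn
  have h1 : (n.divisors.card : ℝ) ^ (k + 1) ≤ (C : ℝ) * (n : ℝ) := by
    exact_mod_cast h n (by omega)
  have h2 : ((n.divisors.card : ℝ) ^ (k + 1)) ^ (1 / ((k + 1 : ℕ) : ℝ)) =
      (n.divisors.card : ℝ) := by
    rw [← Real.rpow_natCast, ← Real.rpow_mul (Nat.cast_nonneg _), mul_one_div_cancel hk1.ne',
      Real.rpow_one]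
  have h3 : ((n.divisors.card : ℝ) ^ (k + 1)) ^ (1 / ((k + 1 : ℕ) : ℝ)) ≤
      ((C : ℝ) * (n : ℝ)) ^ (1 / ((k + 1 : ℕ) : ℝ)) :=
    Real.rpow_le_rpow (by positivity) h1 (by positivity)
  rw [h2, Real.mul_rpow (by positivity) (by positivity)] at h3
  refine h3.trans (mul_le_mul_of_nonneg_left ?_ (by positivity))
  refine Real.rpow_le_rpow_of_exponent_le hn1 ?_
  rw [div_le_iff₀ hk1]
  have h4 : 1 ≤ (k : ℝ) * ε := by
    rw [div_le_iff₀ hε] at hk
    exact hk
  push_cast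
  nlinarith

lemma Lx_eq {m : ℕ} {x y : ZM m} {s : Fin m} (h : ∀ j, j < s → y j = x j) :
    Lx y s = Lx x s := by
  unfold Lx
  have h1 : {w : Fin m → ℚ | ∃ j : Fin m, (j : ℕ) < (s : ℕ) ∧ w = fun l => ((y j l : ℤ) : ℚ)} =
      {w : Fin m → ℚ | ∃ j : Fin m, (j : ℕ) < (s : ℕ) ∧ w = fun l => ((x j l : ℤ) : ℚ)} := by
    ext w
    constructor
    · rintro ⟨j, hj, hw⟩
      refine ⟨j, hj, ?_⟩
      rw [← h j hj]
      exact hw
    · rintro ⟨j, hj, hw⟩
      refine ⟨j, hj, ?_⟩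
      rw [h j hj]
      exact hw
  rw [h1]

theorem pf_CNX (hDVB : T_DVB) (hTUP : T_TUP) (hCTS : T_CTS) (hIJL : T_IJL) (hCNT : T_CNT) :
    T_CNX := by
  classical
  intro m hm ε hε
  have hm0 : (0 : ℝ) < m := by exact_mod_cast hm
  obtain ⟨C, hC, hI⟩ := hIJL m hm
  obtain ⟨C1, hC1, hD⟩ := hDVB (ε / m) (by positivity)
  have hC0 : (0 : ℝ) < C := by linarith
  have hC10 : (0 : ℝ) < C1 := by linarith
  refine ⟨C1 ^ m * C ^ m * (2 * C) ^ (m * m), by positivity, ?_⟩
  intro N hN b n a k hS R hR hmon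
  have hNR : (0 : ℝ) < N := by exact_mod_cast hN
  have ha := hS.pos
  obtain ⟨PI0, hPI0⟩ : ∃ PI0 : ℝ, PI0 = ∏ i, ∏ j, (1 + R i / a j) := ⟨_, rfl⟩
  have hPI00 : 0 ≤ PI0 := by
    rw [hPI0]
    refine Finset.prod_nonneg fun i _ => Finset.prod_nonneg fun j _ => ?_
    have h1 := hR i
    have h2 := ha j
    positivity
  rw [← hPI0]
  obtain ⟨Xd, hXd⟩ : ∃ Xd : (Fin m → ℕ) → Set (Fin m → (Fin m → ℤ)), Xd = fun d =>
    {x | (Matrix.det (Matrix.of x)).natAbs = N ∧ inBox b R (Matrix.of x) ∧ ∏ s, d s = N ∧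
      ∀ s : Fin m, x s ∉ Lx (Matrix.of x) s ∧ ∃ z ∈ Lx (Matrix.of x) s, ∃ w : Fin m → ℤ,
        x s = z + (d s : ℤ) • w} := ⟨_, rfl⟩
  have hXc : ∀ d : Fin m → ℕ, (Xd d).Finite ∧
      ((Xd d).ncard : ℝ) ≤ (N : ℝ)⁻¹ * (C ^ m * (2 * C) ^ (m * m)) * PI0 := by
    intro d
    by_cases hd : ∏ s, d s = N
    · have hd1 : ∀ s, 1 ≤ d s := by
        intro s
        rw [Nat.one_le_iff_ne_zero]
        intro h0
        have h1 : ∏ s, d s = 0 := Finset.prod_eq_zero (Finset.mem_univ s) h0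
        omega
      have hB0 : ∀ s : Fin m, 0 ≤ (d s : ℝ)⁻¹ * (C * ∏ j, (2 * C * (1 + R s / a j))) := by
        intro s
        have h1 := hR s
        have h2 : 0 ≤ ∏ j, (2 * C * (1 + R s / a j)) := by
          refine Finset.prod_nonneg fun j _ => ?_
          have h3 := ha j
          positivity
        positivity
      have h1 := hTUP (Fin m → ℤ) m (Xd d)
        (fun s => (d s : ℝ)⁻¹ * (C * ∏ j, (2 * C * (1 + R s / a j)))) hB0 ?_
      · refine ⟨h1.1, h1.2.trans (le_of_eq ?_)⟩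
        rw [Finset.prod_mul_distrib, Finset.prod_inv_distrib, Finset.prod_mul_distrib,
          Finset.prod_const, Finset.card_univ, Fintype.card_fin]
        have h2 : ∏ s, (d s : ℝ) = (N : ℝ) := by
          rw [← hd]
          push_cast
          rfl
        have h3 : ∏ s : Fin m, ∏ j : Fin m, (2 * C * (1 + R s / a j)) =
            (2 * C) ^ (m * m) * PI0 := by
          rw [hPI0]
          have h4 : ∀ s : Fin m, ∏ j : Fin m, (2 * C * (1 + R s / a j)) =
              (2 * C) ^ m * ∏ j : Fin m, (1 + R s / a j) := by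
            intro s
            rw [Finset.prod_mul_distrib, Finset.prod_const, Finset.card_univ, Fintype.card_fin]
          simp only [h4]
          rw [Finset.prod_mul_distrib, Finset.prod_const, Finset.card_univ, Fintype.card_fin,
            ← pow_mul]
        rw [h2, h3]
        ring
      · intro s x hx
        have hx' := hx
        rw [hXd] at hx'
        obtain ⟨hx1, hx2, -, hx3⟩ := hx'
        have h2 := hI b n a k hS (Matrix.of x) hx2.1 s (R s) (hR s) (fun j hj =>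
          (hx2.2 j).trans (hmon hj.le)) (d s) (hd1 s)
        have h3 : {a : Fin m → ℤ | ∃ y ∈ Xd d, (∀ j, j < s → y j = x j) ∧ y s = a} ⊆
            {l : Fin m → ℤ | l ∉ Lx (Matrix.of x) s ∧ rowN (vb l b) ≤ R s ∧
              ∃ z ∈ Lx (Matrix.of x) s, ∃ w : Fin m → ℤ, l = z + (d s : ℤ) • w} := by
          rintro l ⟨y, hy, h4, h5⟩
          rw [hXd] at hy
          obtain ⟨hy1, hy2, -, hy3⟩ := hy
          have h6 : Lx (Matrix.of y) s = Lx (Matrix.of x) s := Lx_eq (fun j hj => h4 j hj)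
          have h7 := hy3 s
          rw [h6, h5] at h7
          refine ⟨h7.1, ?_, h7.2⟩
          have h8 := hy2.2 s
          have h9 : (Matrix.of y) s = l := h5
          rw [h9] at h8
          exact h8
        refine ⟨h2.1.subset h3, ?_⟩
        have h4 := Set.ncard_le_ncard h3 h2.1
        have hds : (0 : ℝ) < (d s : ℝ) := by exact_mod_cast hd1 s
        rw [le_inv_mul_iff₀ hds]
        have h5 := ((hCNT m b n a k hS).1 (C * R s) (mul_nonneg hC0.le (hR s).le)).2
        calc (d s : ℝ) * ({a : Fin m → ℤ | ∃ y ∈ Xd d, (∀ j, j < s → y j = x j) ∧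
              y s = a}.ncard : ℝ)
            ≤ (d s : ℝ) * ({l : Fin m → ℤ | l ∉ Lx (Matrix.of x) s ∧ rowN (vb l b) ≤ R s ∧
              ∃ z ∈ Lx (Matrix.of x) s, ∃ w : Fin m → ℤ, l = z + (d s : ℤ) • w}.ncard : ℝ) :=
              mul_le_mul_of_nonneg_left (by exact_mod_cast h4) hds.le
          _ ≤ C * ({w : Fin m → ℤ | rowN (vb w b) ≤ C * R s}.ncard : ℝ) := h2.2
          _ ≤ C * ∏ j, (1 + 2 * (C * R s) / a j) := mul_le_mul_of_nonneg_left h5 hC0.le
          _ ≤ C * ∏ j, (2 * C * (1 + R s / a j)) := by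
              refine mul_le_mul_of_nonneg_left ?_ hC0.le
              refine Finset.prod_le_prod (fun j _ => ?_) (fun j _ => ?_)
              · have h6 := ha j
                have h7 := hR s
                positivity
              · have h6 := ha j
                have h7 := hR s
                have h8 : 2 * C * (1 + R s / a j) = 2 * C + 2 * (C * R s) / a j := by
                  field_simp
                rw [h8]
                linarith
    · have h1 : Xd d = ∅ := by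
        rw [hXd]
        ext x
        simp only [Set.mem_ofPred_eq, Set.mem_empty_iff_false, iff_false]
        intro hx
        exact hd hx.2.2.1
      rw [h1]
      refine ⟨Set.finite_empty, ?_⟩
      rw [Set.ncard_empty, Nat.cast_zero]
      positivity
  obtain ⟨DD, hDD⟩ : ∃ DD : Finset (Fin m → ℕ), DD = Fintype.piFinset fun _ => N.divisors :=
    ⟨_, rfl⟩
  obtain ⟨Y, hY⟩ : ∃ Y : Finset (Fin m → (Fin m → ℤ)), Y = DD.biUnion
    (fun d => (hXc d).1.toFinset) := ⟨_, rfl⟩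
  have hsub : ∀ x : ZM m, x.det.natAbs = N ∧ inBox b R x → (fun i => x i) ∈ Y := by
    rintro x ⟨hx1, hx2⟩
    obtain ⟨d, hd1, hd2⟩ := hCTS m x hx2.1
    rw [hY, Finset.mem_biUnion]
    refine ⟨d, ?_, ?_⟩
    · rw [hDD, Fintype.mem_piFinset]
      intro s
      rw [Nat.mem_divisors]
      refine ⟨?_, by omega⟩
      rw [← hx1, ← hd1]
      exact Finset.dvd_prod_of_mem _ (Finset.mem_univ s)
    · rw [Set.Finite.mem_toFinset, hXd]
      refine ⟨hx1, hx2, ?_, hd2⟩
      rw [hd1, hx1]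
  have hsum : ∑' x : ZM m, (if x.det.natAbs = N ∧ inBox b R x then (1 : ENNReal) else 0) ≤
      (Y.card : ENNReal) := by
    have h1 : ∀ x : ZM m, (if x.det.natAbs = N ∧ inBox b R x then (1 : ENNReal) else 0) ≤
        if (fun i => x i) ∈ Y then 1 else 0 := by
      intro x
      by_cases hx : x.det.natAbs = N ∧ inBox b R x
      · rw [if_pos hx, if_pos (hsub x hx)]
      · rw [if_neg hx]
        exact bot_le
    refine (ENNReal.tsum_le_tsum h1).trans (le_of_eq ?_)
    have h2 : ∑' x : ZM m, (if (fun i => x i) ∈ Y then (1 : ENNReal) else 0) =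
        ∑' x : (Fin m → (Fin m → ℤ)), (if x ∈ Y then (1 : ENNReal) else 0) := rfl
    rw [h2, tsum_eq_sum (s := Y)]
    · rw [Finset.sum_congr rfl (g := fun _ => (1 : ENNReal)) (fun x hx => if_pos hx)]
      simp
    · intro x hx
      exact if_neg hx
  refine hsum.trans ?_
  have hYc : (Y.card : ℝ) ≤ C1 ^ m * C ^ m * (2 * C) ^ (m * m) * (N : ℝ) ^ (ε - 1) * PI0 := by
    rw [hY]
    refine (Nat.cast_le.2 (Finset.card_biUnion_le)).trans ?_
    rw [Nat.cast_sum]
    refine (Finset.sum_le_card_nsmul _ _ ((N : ℝ)⁻¹ * (C ^ m * (2 * C) ^ (m * m)) * PI0) ?_).trans ?_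
    · intro d _
      have h1 := (hXc d).2
      rwa [Set.ncard_eq_toFinset_card _ (hXc d).1] at h1
    · rw [nsmul_eq_mul, hDD, Fintype.card_piFinset_const]
      have h1 : (((N.divisors.card) ^ m : ℕ) : ℝ) ≤ C1 ^ m * (N : ℝ) ^ ε := by
        have h2 := hD N hN
        have h3 : ((N.divisors.card : ℝ)) ^ m ≤ (C1 * (N : ℝ) ^ (ε / m)) ^ m :=
          pow_le_pow_left₀ (Nat.cast_nonneg _) h2 m
        rw [mul_pow, ← Real.rpow_natCast ((N : ℝ) ^ (ε / m)), ← Real.rpow_mul hNR.le,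
          div_mul_cancel₀ _ hm0.ne'] at h3
        push_cast
        exact h3
      have h4 : (0 : ℝ) ≤ (N : ℝ)⁻¹ * (C ^ m * (2 * C) ^ (m * m)) * PI0 := by positivity
      refine (mul_le_mul_of_nonneg_right h1 h4).trans (le_of_eq ?_)
      have h5 : (N : ℝ) ^ (ε - 1) = (N : ℝ) ^ ε * (N : ℝ)⁻¹ := by
        rw [Real.rpow_sub hNR, Real.rpow_one, div_eq_mul_inv]
      rw [h5]
      ring
  have h6 : (Y.card : ENNReal) = ENNReal.ofReal (Y.card : ℝ) := by
    rw [ENNReal.ofReal_natCast]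
  rw [h6]
  exact ENNReal.ofReal_le_ofReal hYc

end Pool.Agent.H16.GU
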