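import Pool.Agent.H16.GU.CNX
import Pool.Agent.H57.GU.PRJ
import Pool.Agent.H84.GU.CTS

/-!
Row CNX of the board gu.
-/

set_option autoImplicit false

namespace Pool.Agent.H16.GU

open Pool.Agent.H34.GM Pool.Agent.H34.GZ Pool.Agent.H34.GU

theorem pf_CNXF : T_ADB → T_CNT → T_CNX := fun h1 h2 =>
  pf_CNX pf_DVB pf_TUP (Pool.Agent.H84.GU.pf_CTS h1) (pf_IJL Pool.Agent.H57.GU.pf_PRJ h2) h2

end Pool.Agent.H16.GU
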