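import Pool.Agent.H16.GU.Targets3

/-!
Rows TUP and IJL of the board gu.
-/

set_option autoImplicit false

namespace Pool.Agent.H16.GU

open Pool.Agent.H34.GM Pool.Agent.H34.GZ Pool.Agent.H34.GU

theorem pf_TUP : T_TUP := by
  classical
  intro α m
  induction m with
  | zero =>
    intro X B _ _
    have h1 : X ⊆ {fun i : Fin 0 => i.elim0} := by
      intro x _
      rw [Set.mem_singleton_iff]
      funext i
      exact i.elim0
    have h2 : ({fun i : Fin 0 => i.elim0} : Set (Fin 0 → α)).Finite := Set.finite_singleton _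
    refine ⟨h2.subset h1, ?_⟩
    rw [Finset.univ_eq_empty, Finset.prod_empty]
    have h3 := Set.ncard_le_ncard h1 h2
    rw [Set.ncard_singleton] at h3
    exact_mod_cast h3
  | succ m ih =>
    intro X B hB h
    obtain ⟨X', hX'⟩ : ∃ X' : Set (Fin m → α), X' = (fun x : Fin (m + 1) → α => Fin.init x) '' X :=
      ⟨_, rfl⟩
    have h1 : X'.Finite ∧ (X'.ncard : ℝ) ≤ ∏ s : Fin m, B s.castSucc := by
      refine ih X' (fun s => B s.castSucc) (fun s => hB _) ?_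
      intro s x' hx'
      rw [hX'] at hx'
      obtain ⟨x, hx, rfl⟩ := hx'
      have h2 := h s.castSucc x hx
      have h3 : {a : α | ∃ y ∈ X', (∀ j, j < s → y j = (Fin.init x : Fin m → α) j) ∧ y s = a} ⊆
          {a : α | ∃ y ∈ X, (∀ j, j < s.castSucc → y j = x j) ∧ y s.castSucc = a} := by
        rintro a ⟨y', hy', h4, h5⟩
        rw [hX'] at hy'
        obtain ⟨y, hy, rfl⟩ := hy'
        refine ⟨y, hy, ?_, h5⟩
        intro j hj
        have h6 : (j : ℕ) < m := lt_of_lt_of_le hj s.isLt.le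
        have h7 := h4 ⟨j, h6⟩ hj
        exact h7
      refine ⟨h2.1.subset h3, le_trans ?_ h2.2⟩
      exact_mod_cast Set.ncard_le_ncard h3 h2.1
    obtain ⟨hf, hc⟩ := h1
    obtain ⟨A, hA⟩ : ∃ A : (Fin m → α) → Set α, A = fun x' =>
      {a : α | ∃ y ∈ X, Fin.init y = x' ∧ y (Fin.last m) = a} := ⟨_, rfl⟩
    have hA1 : ∀ x' ∈ X', (A x').Finite ∧ ((A x').ncard : ℝ) ≤ B (Fin.last m) := by
      intro x' hx'
      rw [hX'] at hx'
      obtain ⟨x, hx, rfl⟩ := hx'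
      have h2 := h (Fin.last m) x hx
      have h3 : A (Fin.init x) ⊆
          {a : α | ∃ y ∈ X, (∀ j, j < Fin.last m → y j = x j) ∧ y (Fin.last m) = a} := by
        rw [hA]
        rintro a ⟨y, hy, h4, h5⟩
        refine ⟨y, hy, ?_, h5⟩
        intro j hj
        have h6 : (j : ℕ) < m := hj
        exact congrFun h4 ⟨j, h6⟩
      refine ⟨h2.1.subset h3, le_trans ?_ h2.2⟩
      exact_mod_cast Set.ncard_le_ncard h3 h2.1
    obtain ⟨Y, hY⟩ : ∃ Y : Finset (Fin (m + 1) → α), Y = hf.toFinset.attach.biUnion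
      (fun x' => (hA1 x'.1 (hf.mem_toFinset.1 x'.2)).1.toFinset.image
        (fun a => (Fin.snoc x'.1 a : Fin (m + 1) → α))) := ⟨_, rfl⟩
    have hXY : X ⊆ ↑Y := by
      intro x hx
      rw [hY, Finset.mem_coe, Finset.mem_biUnion]
      have hx' : Fin.init x ∈ X' := by
        rw [hX']
        exact ⟨x, hx, rfl⟩
      refine ⟨⟨Fin.init x, hf.mem_toFinset.2 hx'⟩, Finset.mem_attach _ _, ?_⟩
      rw [Finset.mem_image]
      refine ⟨x (Fin.last m), ?_, Fin.snoc_init_self x⟩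
      rw [Set.Finite.mem_toFinset, hA]
      exact ⟨x, hx, rfl, rfl⟩
    refine ⟨(Finset.finite_toSet Y).subset hXY, ?_⟩
    have h5 : X.ncard ≤ Y.card := by
      have := Set.ncard_le_ncard hXY (Finset.finite_toSet Y)
      rwa [Set.ncard_coe_finset] at this
    have h6 : (Y.card : ℝ) ≤ X'.ncard * B (Fin.last m) := by
      rw [hY]
      refine (Nat.cast_le.2 (Finset.card_biUnion_le)).trans ?_
      rw [Nat.cast_sum]
      refine (Finset.sum_le_card_nsmul _ _ (B (Fin.last m)) ?_).trans ?_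
      · intro x' _
        refine (Nat.cast_le.2 Finset.card_image_le).trans ?_
        have h7 := (hA1 x'.1 (hf.mem_toFinset.1 x'.2)).2
        rwa [Set.ncard_eq_toFinset_card _ (hA1 x'.1 (hf.mem_toFinset.1 x'.2)).1] at h7
      · rw [Finset.card_attach, nsmul_eq_mul, Set.ncard_eq_toFinset_card _ hf]
    rw [Fin.prod_univ_castSucc]
    calc (X.ncard : ℝ) ≤ (Y.card : ℝ) := by exact_mod_cast h5
      _ ≤ X'.ncard * B (Fin.last m) := h6
      _ ≤ _ := mul_le_mul_of_nonneg_right hc (hB _)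

/-! ### the norm of the rows -/

lemma rowN_eq {m : ℕ} (v : Fin m → ℝ) :
    rowN v = ‖(WithLp.toLp 2 v : EuclideanSpace ℝ (Fin m))‖ := by
  rw [EuclideanSpace.norm_eq]
  unfold rowN
  congr 1
  refine Finset.sum_congr rfl fun i _ => ?_
  simp [sq_abs]

lemma rowN_add {m : ℕ} (v w : Fin m → ℝ) : rowN (v + w) ≤ rowN v + rowN w := by
  rw [rowN_eq, rowN_eq, rowN_eq, WithLp.toLp_add]
  exact norm_add_le _ _

lemma rowN_sub {m : ℕ} (v w : Fin m → ℝ) : rowN (v - w) ≤ rowN v + rowN w := by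
  rw [rowN_eq, rowN_eq, rowN_eq, WithLp.toLp_sub]
  exact norm_sub_le _ _

lemma rowN_smul {m : ℕ} (c : ℝ) (v : Fin m → ℝ) : rowN (c • v) = |c| * rowN v := by
  rw [rowN_eq, rowN_eq, WithLp.toLp_smul, norm_smul, Real.norm_eq_abs]

lemma rowN_nonneg {m : ℕ} (v : Fin m → ℝ) : 0 ≤ rowN v := Real.sqrt_nonneg _

lemma rowN_pos {m : ℕ} {v : Fin m → ℝ} (hv : v ≠ 0) : 0 < rowN v := by
  rw [rowN_eq, norm_pos_iff]
  intro h
  exact hv ((WithLp.toLp_eq_zero 2).1 h)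

lemma vb_add {m : ℕ} (b : Mat m) (l l' : Fin m → ℤ) : vb (l + l') b = vb l b + vb l' b := by
  unfold vb
  rw [← Matrix.add_vecMul]
  congr 1
  funext i
  simp

lemma vb_sub {m : ℕ} (b : Mat m) (l l' : Fin m → ℤ) : vb (l - l') b = vb l b - vb l' b := by
  unfold vb
  rw [← Matrix.sub_vecMul]
  congr 1
  funext i
  simp

lemma vb_smul {m : ℕ} (b : Mat m) (n : ℤ) (l : Fin m → ℤ) : vb (n • l) b = (n : ℝ) • vb l b := by
  unfold vb
  rw [← Matrix.smul_vecMul]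
  congr 1
  funext i
  simp

lemma sgl_det {m : ℕ} {b n : Mat m} {a : Fin m → ℝ} {k : Mat m} (h : Sgl b n a k) : b.det ≠ 0 := by
  rw [h.eq, Matrix.det_mul, Matrix.det_mul, Matrix.det_diagonal]
  have h1 : n.det = 1 := by
    rw [Matrix.det_of_lowerTriangular]
    · exact Finset.prod_eq_one fun i _ => h.one i
    · intro i j hij
      exact h.up i j hij
  have h2 : k.det ≠ 0 := by
    intro h0
    have h3 := congrArg Matrix.det h.orth
    rw [Matrix.det_mul, Matrix.det_transpose, h0, Matrix.det_one] at h3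
    norm_num at h3
  rw [h1, one_mul]
  exact mul_ne_zero (Finset.prod_ne_zero_iff.2 fun i _ => (h.pos i).ne') h2

theorem pf_IJL (hPRJ : T_PRJ) (hCNT : T_CNT) : T_IJL := by
  classical
  intro m hm
  refine ⟨(m : ℝ) + 3, by linarith [(Nat.cast_nonneg m : (0 : ℝ) ≤ m)], ?_⟩
  intro b n a k hS x hx s R hR hrow e he
  obtain ⟨P, hP1, hP2, hP3⟩ := hPRJ m hm b x (sgl_det hS) hx s R hR hrow
  obtain ⟨S, hSd⟩ : ∃ S : Set (Fin m → ℤ), S = {l : Fin m → ℤ | l ∉ Lx x s ∧ rowN (vb l b) ≤ R ∧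
      ∃ z ∈ Lx x s, ∃ w : Fin m → ℤ, l = z + (e : ℤ) • w} := ⟨_, rfl⟩
  rw [← hSd]
  have hfin : ∀ ρ : ℝ, 0 ≤ ρ → {w : Fin m → ℤ | rowN (vb w b) ≤ ρ}.Finite := fun ρ hρ =>
    ((hCNT m b n a k hS).1 ρ hρ).1
  have hSf : S.Finite := by
    refine (hfin R hR.le).subset ?_
    rw [hSd]
    intro l hl
    exact hl.2.1
  refine ⟨hSf, ?_⟩
  have hC0 : (0 : ℝ) ≤ (m : ℝ) + 3 := by positivity
  rcases S.eq_empty_or_nonempty with hemp | hne
  · rw [hemp, Set.ncard_empty]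
    simp only [Nat.cast_zero, mul_zero]
    positivity
  obtain ⟨p, hp⟩ : ∃ p : (Fin m → ℤ) → (Fin m → ℝ), p = fun l => P (vb l b) := ⟨_, rfl⟩
  have hpa : ∀ l l', p (l + l') = p l + p l' := by
    intro l l'
    rw [hp]
    simp only
    rw [vb_add, map_add]
  have hps : ∀ l l', p (l - l') = p l - p l' := by
    intro l l'
    rw [hp]
    simp only
    rw [vb_sub, map_sub]
  have hpm : ∀ (c : ℤ) l, p (c • l) = (c : ℝ) • p l := by
    intro c l
    rw [hp]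
    simp only
    rw [vb_smul, map_smul]
  have hpn : ∀ l, rowN (p l) ≤ rowN (vb l b) := by
    intro l
    rw [hp]
    exact hP1 _
  have hp0 : ∀ l, p l = 0 ↔ l ∈ Lx x s := by
    intro l
    rw [hp]
    exact hP2 l
  obtain ⟨l1, hl1, hmax⟩ : ∃ l1 ∈ S, ∀ l ∈ S, rowN (p l) ≤ rowN (p l1) := by
    obtain ⟨l1, h1, h2⟩ := Set.exists_max_image S (fun l => rowN (p l)) hSf hne
    exact ⟨l1, h1, h2⟩
  have hSm : ∀ l ∈ S, l ∉ Lx x s ∧ rowN (vb l b) ≤ R ∧
      ∃ z ∈ Lx x s, ∃ w : Fin m → ℤ, l = z + (e : ℤ) • w := by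
    intro l hl
    rw [hSd] at hl
    exact hl
  have hpos : 0 < rowN (p l1) := by
    refine rowN_pos ?_
    intro h
    exact (hSm l1 hl1).1 ((hp0 l1).1 h)
  have heR : (0 : ℝ) < e := by exact_mod_cast he
  -- the divided points
  have hW : ∀ l : Fin m → ℤ, ∃ w : Fin m → ℤ, l ∈ S → (e : ℝ) • p w = p l := by
    intro l
    by_cases hl : l ∈ S
    · obtain ⟨-, -, z, hz, w, hw⟩ := hSm l hl
      refine ⟨w, fun _ => ?_⟩
      have h1 : p l = p z + p ((e : ℤ) • w) := by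
        rw [← hpa, ← hw]
      rw [h1, (hp0 z).2 hz, zero_add, hpm]
      simp
    · exact ⟨0, fun h => absurd h hl⟩
  choose W hW using hW
  have hrep : ∀ v : Fin m → ℝ, ∃ y : Fin m → ℤ, (∃ l, p l = v) → p y = v ∧
      rowN (vb y b) ≤ rowN v + m * R := by
    intro v
    by_cases hv : ∃ l, p l = v
    · obtain ⟨l, hl⟩ := hv
      obtain ⟨z, hz, h1⟩ := hP3 l
      refine ⟨l - z, fun _ => ⟨?_, ?_⟩⟩
      · rw [hps, (hp0 z).2 hz, sub_zero, hl]
      · have h2 : P (vb l b) = v := by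
          rw [← hl, hp]
        rw [h2] at h1
        exact h1
    · exact ⟨0, fun h => absurd h hv⟩
  choose rep hrep using hrep
  have hl0 : ∀ v : Fin m → ℝ, ∃ y : Fin m → ℤ, (∃ l ∈ S, p l = v) → y ∈ S ∧ p y = v := by
    intro v
    by_cases hv : ∃ l ∈ S, p l = v
    · obtain ⟨l, hl, h1⟩ := hv
      exact ⟨l, fun _ => ⟨hl, h1⟩⟩
    · exact ⟨0, fun h => absurd h hv⟩
  choose l0 hl0 using hl0
  obtain ⟨K, hK⟩ : ∃ K : ℕ, K = (e - 1) / 3 := ⟨_, rfl⟩
  obtain ⟨Φ, hΦ⟩ : ∃ Φ : (Fin m → ℤ) × ℕ → (Fin m → ℤ), Φ = fun q =>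
    rep (p (W q.1 + ((3 * q.2 : ℕ) : ℤ) • W l1)) + (q.1 - l0 (p q.1)) := ⟨_, rfl⟩
  have hu : ∀ l ∈ S, ∀ j : ℕ, p (W l + ((3 * j : ℕ) : ℤ) • W l1) =
      (e : ℝ)⁻¹ • (p l + ((3 * j : ℕ) : ℝ) • p l1) := by
    intro l hl j
    rw [hpa, hpm, ← hW l hl, ← hW l1 hl1, smul_add, smul_smul, inv_mul_cancel₀ heR.ne', one_smul,
      smul_smul, smul_smul]
    congr 2
    push_cast
    field_simp
  have hΦp : ∀ l ∈ S, ∀ j : ℕ, p (Φ (l, j)) = (e : ℝ)⁻¹ • (p l + ((3 * j : ℕ) : ℝ) • p l1) := by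
    intro l hl j
    rw [hΦ]
    simp only
    rw [hpa, hps, (hrep _ ⟨_, rfl⟩).1, (hl0 (p l) ⟨l, hl, rfl⟩).2, sub_self, add_zero, hu l hl j]
  have hKe : ∀ j ∈ Finset.range (K + 1), 3 * j + 1 ≤ e := by
    intro j hj
    rw [Finset.mem_range] at hj
    omega
  have hΦn : ∀ l ∈ S, ∀ j ∈ Finset.range (K + 1), rowN (vb (Φ (l, j)) b) ≤ ((m : ℝ) + 3) * R := by
    intro l hl j hj
    have h1 : rowN (p (W l + ((3 * j : ℕ) : ℤ) • W l1)) ≤ R := by
      rw [hu l hl j, rowN_smul, abs_of_pos (inv_pos.2 heR)]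
      have h2 : rowN (p l + ((3 * j : ℕ) : ℝ) • p l1) ≤ ((3 * j + 1 : ℕ) : ℝ) * R := by
        refine (rowN_add _ _).trans ?_
        rw [rowN_smul, abs_of_nonneg (Nat.cast_nonneg _)]
        have h3 := (hpn l).trans (hSm l hl).2.1
        have h4 := (hpn l1).trans (hSm l1 hl1).2.1
        have h5 : ((3 * j : ℕ) : ℝ) * rowN (p l1) ≤ ((3 * j : ℕ) : ℝ) * R :=
          mul_le_mul_of_nonneg_left h4 (Nat.cast_nonneg _)
        push_cast at h5 ⊢
        linarith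
      have h6 : ((3 * j + 1 : ℕ) : ℝ) ≤ e := by exact_mod_cast hKe j hj
      rw [inv_mul_le_iff₀ heR]
      exact h2.trans (mul_le_mul_of_nonneg_right h6 hR.le)
    have h2 := (hrep (p (W l + ((3 * j : ℕ) : ℤ) • W l1)) ⟨_, rfl⟩).2
    have h3 := (hSm _ (hl0 (p l) ⟨l, hl, rfl⟩).1).2.1
    have h4 := (hSm l hl).2.1
    rw [hΦ]
    simp only
    rw [vb_add, vb_sub]
    have h5 := rowN_add (vb (rep (p (W l + ((3 * j : ℕ) : ℤ) • W l1))) b)
      (vb l b - vb (l0 (p l)) b)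
    have h6 := rowN_sub (vb l b) (vb (l0 (p l)) b)
    linarith
  have hinj : ∀ l ∈ S, ∀ j ∈ Finset.range (K + 1), ∀ l' ∈ S, ∀ j' ∈ Finset.range (K + 1),
      Φ (l, j) = Φ (l', j') → (l, j) = (l', j') := by
    intro l hl j _ l' hl' j' _ hE
    have h1 := congrArg p hE
    rw [hΦp l hl j, hΦp l' hl' j'] at h1
    have h2 : p l + ((3 * j : ℕ) : ℝ) • p l1 = p l' + ((3 * j' : ℕ) : ℝ) • p l1 :=
      smul_right_injective _ (inv_ne_zero heR.ne') h1
    have h3 : (((3 * j : ℕ) : ℝ) - ((3 * j' : ℕ) : ℝ)) • p l1 = p l' - p l := by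
      rw [sub_smul]
      linear_combination (exp := 1) h2
    have h4 : |((3 * j : ℕ) : ℝ) - ((3 * j' : ℕ) : ℝ)| * rowN (p l1) ≤ 2 * rowN (p l1) := by
      rw [← rowN_smul, h3]
      refine (rowN_sub _ _).trans ?_
      linarith [hmax l hl, hmax l' hl']
    have h5 : |((3 * j : ℕ) : ℝ) - ((3 * j' : ℕ) : ℝ)| ≤ 2 := le_of_mul_le_mul_right h4 hpos
    have h6 : j = j' := by
      have h7 : |((3 * j : ℤ) : ℝ) - ((3 * j' : ℤ) : ℝ)| ≤ 2 := by
        push_cast at h5 ⊢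
        exact h5
      have h8 : |(3 * j : ℤ) - (3 * j' : ℤ)| ≤ 2 := by
        exact_mod_cast h7
      rw [abs_le] at h8
      omega
    subst h6
    have h7 : p l = p l' := by
      have := add_right_cancel h2
      exact this
    have h8 : W l = W l → True := fun _ => trivial
    rw [hΦ] at hE
    simp only at hE
    rw [hu l hl j, hu l' hl' j, h7] at hE
    have h9 : l = l' := by
      have h10 := add_left_cancel hE
      exact sub_left_injective h10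
    rw [h9]
  obtain ⟨Sf, hSf'⟩ : ∃ Sf : Finset (Fin m → ℤ), Sf = hSf.toFinset := ⟨_, rfl⟩
  have hmem : ∀ l, l ∈ Sf ↔ l ∈ S := by
    intro l
    rw [hSf']
    exact hSf.mem_toFinset
  have hρ : (0 : ℝ) ≤ ((m : ℝ) + 3) * R := by positivity
  have hcard : (Sf ×ˢ Finset.range (K + 1)).card ≤ (hfin _ hρ).toFinset.card := by
    refine Finset.card_le_card_of_injOn Φ ?_ ?_
    · rintro ⟨l, j⟩ hq
      rw [Finset.mem_coe, Finset.mem_product] at hq
      rw [Finset.mem_coe, Set.Finite.mem_toFinset]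
      exact hΦn l ((hmem l).1 hq.1) j hq.2
    · rintro ⟨l, j⟩ hq ⟨l', j'⟩ hq' hE
      rw [Finset.mem_coe, Finset.mem_product] at hq hq'
      exact hinj l ((hmem l).1 hq.1) j hq.2 l' ((hmem l').1 hq'.1) j' hq'.2 hE
  rw [Finset.card_product, Finset.card_range] at hcard
  have h1 : S.ncard = Sf.card := by
    rw [hSf']
    exact Set.ncard_eq_toFinset_card _ hSf
  have h2 : {w : Fin m → ℤ | rowN (vb w b) ≤ ((m : ℝ) + 3) * R}.ncard =
      (hfin _ hρ).toFinset.card := Set.ncard_eq_toFinset_card _ (hfin _ hρ)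
  rw [h1, h2]
  have h3 : (e : ℝ) ≤ 3 * ((K + 1 : ℕ) : ℝ) := by
    have : e ≤ 3 * (K + 1) := by omega
    exact_mod_cast this
  have h4 : ((Sf.card : ℕ) : ℝ) * ((K + 1 : ℕ) : ℝ) ≤ ((hfin _ hρ).toFinset.card : ℝ) := by
    exact_mod_cast hcard
  have h5 : (0 : ℝ) ≤ ((hfin _ hρ).toFinset.card : ℝ) := Nat.cast_nonneg _
  calc (e : ℝ) * (Sf.card : ℝ) ≤ 3 * ((K + 1 : ℕ) : ℝ) * (Sf.card : ℝ) :=
        mul_le_mul_of_nonneg_right h3 (Nat.cast_nonneg _)
    _ = 3 * ((Sf.card : ℝ) * ((K + 1 : ℕ) : ℝ)) := by ring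
    _ ≤ 3 * ((hfin _ hρ).toFinset.card : ℝ) := by linarith
    _ ≤ ((m : ℝ) + 3) * ((hfin _ hρ).toFinset.card : ℝ) := by
        refine mul_le_mul_of_nonneg_right ?_ h5
        linarith [(Nat.cast_nonneg m : (0 : ℝ) ≤ m)]

end Pool.Agent.H16.GU
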