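import Pool.Agent.H34.GU.Targets1

/-!
Targets of the board gu, second part: the singular terms of the Poisson side (page H16_GN.md).
-/

namespace Pool.Agent.H34.GU

open MeasureTheory Pool.Agent.H34.GM Pool.Agent.H34.GZ

/-! ### definitions -/

/-- the stabiliser: the units `(A 0; C 1)` -/
def St {m : ℕ} (k : ℕ) (γ : ZM m) : Prop :=
  IsUnit γ ∧ ∀ i j : Fin m, k ≤ (j : ℕ) → γ i j = if i = j then 1 else 0

/-- the units `(A 0; 0 1)` -/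
def Ab {m : ℕ} (k : ℕ) (γ : ZM m) : Prop :=
  IsUnit γ ∧ ∀ i j : Fin m, k ≤ (i : ℕ) ∨ k ≤ (j : ℕ) → γ i j = if i = j then 1 else 0

/-- the units `(1 0; C 1)` -/
def Ub {m : ℕ} (k : ℕ) (γ : ZM m) : Prop :=
  ∀ i j : Fin m, ¬ ((j : ℕ) < k ∧ k ≤ (i : ℕ)) → γ i j = if i = j then 1 else 0

/-! ### absolute convergence -/

/-- the averaging inequality -/
def T_AVI : Prop := ∀ (m : ℕ) (c : ℝ), 1 ≤ m → 0 < c → ∃ C : ℝ, 0 < C ∧ ∀ a a' : Fin m → ℝ,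
  (∀ i, 0 < a i) → (∀ i, 0 < a' i) → (∀ i j, i ≤ j → a i ≤ 2 ^ m * a j) →
  (∀ i j, i ≤ j → a' i ≤ 2 ^ m * a' j) → ∏ i, a i ≤ c * ∏ i, a' i →
    ∏ i, ∏ j, (1 + a i / a' j) ≤ C * skw a * skw a'

/-- number of the integer matrices seen by a kernel, singular ones included -/
def T_CNA : Prop := ∀ m : ℕ, 1 ≤ m → ∃ C : ℝ, 0 < C ∧ ∀ (h n : Mat m) (a : Fin m → ℝ) (k : Mat m)
  (g n' : Mat m) (a' : Fin m → ℝ) (k' : Mat m), Sgl h n a k → Sgl g n' a' k' →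
  ∀ r R : ℝ, 0 < r → 0 ≤ R →
    {α : ZM m | sz (kk r h (cR α) g) ≤ R}.Finite ∧
    ({α : ZM m | sz (kk r h (cR α) g) ≤ R}.ncard : ℝ) ≤
      C * (1 + R * r) ^ (m ^ 2) * skw a * skw a'

/-- lattice sums, singular terms included -/
def T_SCU : Prop := ∀ m : ℕ, 1 ≤ m → ∃ (N0 : ℕ) (C : ℝ), 0 < C ∧ ∀ r : ℝ, 0 < r →
  ∀ h g : Mat m, h.det ≠ 0 → g.det ≠ 0 →
    ∑' α : ZM m, ENNReal.ofReal ((1 + sz (kk r h (cR α) g)) ^ (-(N0 : ℝ))) ≤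
      ENNReal.ofReal (C * (1 + r) ^ (m ^ 2)) * (Tht h * Tht g)

/-- the skewness is finite -/
def T_THF : Prop := ∀ (m : ℕ) (g : Mat m), 1 ≤ m → g.det ≠ 0 → Tht g < ⊤

/-- the domain is the union of the sets `DY` -/
def T_DYC : Prop := ∀ (m : ℕ) (D : Set (V m)), 1 ≤ m → DomZ m D → ∀ z ∈ D, ∃ Y : ℝ, 2 ≤ Y ∧
  z ∈ DY D Y

/-- a cusp form is integrable against the skewness -/
def T_TFI : Prop := ∀ (m N : ℕ) [NeZero N] (T : ℕ → Finset (ZM m)) (D : Set (V m)),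
  SysZ m N T D → ∀ (F : Mat m → VN m N → ℂ) (lam : ℕ → ℂ) (mu : Fin m → ℂ),
  CuspU m N T F lam mu →
    ∫⁻ z in D, Tht (mt z) * ∑ x : VN m N, ENNReal.ofReal ‖F (mt z) x‖ ∂(hm m) < ⊤

/-- absolute convergence -/
def T_ACV : Prop := ∀ (m N : ℕ) [NeZero N] (D : Set (V m)), 1 ≤ m → DomZ m D →
  ∀ F : Mat m → VN m N → ℂ,
  ∫⁻ z in D, Tht (mt z) * ∑ x : VN m N, ENNReal.ofReal ‖F (mt z) x‖ ∂(hm m) < ⊤ →
  ∀ Ψ : Mat m → ℂ, Dec m Ψ → ∀ (g : Mat m) (r : ℝ) (x : VN m N), g.det ≠ 0 → 0 < r →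
    ∫⁻ z in D, ∑' α : ZM m, ENNReal.ofReal
      ‖Ψ (kk r (mt z) (cR α) g) * F (mt z) (ac N α x)‖ ∂(hm m) < ⊤

/-! ### the non singular part -/

open Classical in
/-- the non singular part of the operator with a rapidly decreasing kernel -/
def T_EIV : Prop := ∀ (m N : ℕ) [NeZero N] (T : ℕ → Finset (ZM m)) (D : Set (V m)),
  SysZ m N T D → ∀ (F : Mat m → VN m N → ℂ) (lam : ℕ → ℂ) (mu : Fin m → ℂ),
  EigU m N T F lam mu → ∀ Ψ : Mat m → ℂ, Dec m Ψ →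
  ∀ (g : Mat m) (r : ℝ) (x : VN m N), g.det ≠ 0 → 0 < r →
    ∫ z in D, ∑' α : ZM m, (if α.det = 0 then 0 else
      Ψ (kk r (mt z) (cR α) g) * F (mt z) (ac N α x)) ∂(hm m) = thF 1 Ψ mu lam r * F g x

/-! ### the singular part -/

/-- representatives of the singular matrices -/
def T_ORB : Prop := ∀ m : ℕ, 1 ≤ m → ∃ R : Set (ZM m),
  (∀ ρ ∈ R, ∃ k : ℕ, 0 < k ∧ k < m ∧ (∀ i j : Fin m, (i : ℕ) < k → ρ i j = 0) ∧
    ∀ γ : ZM m, IsUnit γ → (γ * ρ = ρ ↔ St k γ)) ∧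
  ∀ α : ZM m, α.det = 0 → α ≠ 0 → ∃! ρ : ZM m, ρ ∈ R ∧ ∃ γ : ZM m, IsUnit γ ∧ α = γ * ρ

/-- weights for the units `(A 0; 0 1)`: `w = exp(-|z_1|^2) / sum exp(-|A z_1|^2)`, `z_1` the first
`k` rows -/
def T_WT1 : Prop := ∀ m k : ℕ, 0 < k → k < m → ∃ w : V m → ENNReal, Measurable w ∧
  (∀ t z : V m, w (fun i j => ((1 + nk k t) * mt z) i j) = w z) ∧
  ∀ z : V m, (mt z).det ≠ 0 →
    ∑' γ : {γ : ZM m // Ab k γ}, w (fun i j => (cR γ.1 * mt z) i j) = 1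

/-- weights for the units `(1 0; C 1)` -/
def T_WT2 : Prop := ∀ m k : ℕ, 0 < k → k < m → ∃ w : V m → ENNReal, Measurable w ∧
  ∀ z : V m, (mt z).det ≠ 0 →
    ∑' γ : {γ : ZM m // Ub k γ}, w (fun i j => (cR γ.1 * mt z) i j) = 1

/-- weights for the stabiliser, stable under the real unipotent matrices -/
def T_WTS : Prop := ∀ m k : ℕ, 0 < k → k < m → ∃ w : V m → ENNReal, Measurable w ∧
  ∀ t z : V m, (mt z).det ≠ 0 →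
    ∑' γ : {γ : ZM m // St k γ}, w (fun i j => ((1 + nk k t) * (cR γ.1 * mt z)) i j) = 1

/-- left multiplication by a matrix of determinant `±1` -/
def T_NUI : Prop := ∀ m : ℕ, 1 ≤ m → ∀ a : Mat m, |a.det| = 1 →
  (∀ f : V m → ENNReal, Measurable f →
    ∫⁻ z in Shell m, f (fun i j => (a * mt z) i j) ∂(hm m) = ∫⁻ z in Shell m, f z ∂(hm m)) ∧
  ∀ f : V m → ℂ, ∫ z in Shell m, f (fun i j => (a * mt z) i j) ∂(hm m) =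
    ∫ z in Shell m, f z ∂(hm m)

open Classical in
/-- unfolding of the sum over one orbit -/
def T_UFS : Prop := ∀ (m : ℕ) (D : Set (V m)), 1 ≤ m → DomZ m D → ∀ (k : ℕ) (ρ : ZM m),
  (∀ γ : ZM m, IsUnit γ → (γ * ρ = ρ ↔ St k γ)) →
  ∀ f : ZM m → V m → ℂ, (∀ α, Measurable (f α)) →
  (∀ (γ α : ZM m) (z : V m), IsUnit γ → (mt z).det ≠ 0 →
    f (γ * α) (fun i j => (cR γ * mt z) i j) = f α z) →
  ∫⁻ z in D, ∑' α : ZM m, (if ∃ γ : ZM m, IsUnit γ ∧ α = γ * ρ then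
    ENNReal.ofReal ‖f α z‖ else 0) ∂(hm m) < ⊤ →
  ∀ w : V m → ENNReal, Measurable w →
  (∀ z : V m, (mt z).det ≠ 0 →
    ∑' γ : {γ : ZM m // St k γ}, w (fun i j => (cR γ.1 * mt z) i j) = 1) →
    IntegrableOn (fun z => f ρ z * ((w z).toReal : ℂ)) (Shell m) (hm m) ∧
    ∫⁻ z in Shell m, ENNReal.ofReal ‖f ρ z‖ * w z ∂(hm m) =
      ∫⁻ z in D, ∑' α : ZM m, (if ∃ γ : ZM m, IsUnit γ ∧ α = γ * ρ then
        ENNReal.ofReal ‖f α z‖ else 0) ∂(hm m) ∧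
    ∫ z in D, ∑' α : ZM m, (if ∃ γ : ZM m, IsUnit γ ∧ α = γ * ρ then f α z else 0) ∂(hm m) =
      ∫ z in Shell m, f ρ z * ((w z).toReal : ℂ) ∂(hm m)

open Classical in
/-- the sum over one orbit vanishes -/
def T_SVO : Prop := ∀ (m N : ℕ) [NeZero N] (T : ℕ → Finset (ZM m)) (D : Set (V m)),
  SysZ m N T D → ∀ (F : Mat m → VN m N → ℂ) (lam : ℕ → ℂ) (mu : Fin m → ℂ),
  CuspU m N T F lam mu → ∀ Ψ : Mat m → ℂ, Continuous Ψ →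
  ∀ (g : Mat m) (r : ℝ) (x : VN m N), g.det ≠ 0 → 0 < r → ∀ (k : ℕ) (ρ : ZM m), 0 < k → k < m →
  (∀ i j : Fin m, (i : ℕ) < k → ρ i j = 0) →
  (∀ γ : ZM m, IsUnit γ → (γ * ρ = ρ ↔ St k γ)) →
  ∫⁻ z in D, ∑' α : ZM m, (if ∃ γ : ZM m, IsUnit γ ∧ α = γ * ρ then
    ENNReal.ofReal ‖Ψ (kk r (mt z) (cR α) g) * F (mt z) (ac N α x)‖ else 0) ∂(hm m) < ⊤ →
    ∫ z in D, ∑' α : ZM m, (if ∃ γ : ZM m, IsUnit γ ∧ α = γ * ρ then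
      Ψ (kk r (mt z) (cR α) g) * F (mt z) (ac N α x) else 0) ∂(hm m) = 0

open Classical in
/-- the singular part vanishes -/
def T_SNG : Prop := ∀ (m N : ℕ) [NeZero N] (T : ℕ → Finset (ZM m)) (D : Set (V m)),
  SysZ m N T D → ∀ (F : Mat m → VN m N → ℂ) (lam : ℕ → ℂ) (mu : Fin m → ℂ),
  CuspU m N T F lam mu → ∀ Ψ : Mat m → ℂ, Continuous Ψ →
  ∀ (g : Mat m) (r : ℝ) (x : VN m N), g.det ≠ 0 → 0 < r →
  ∫⁻ z in D, ∑' α : ZM m, ENNReal.ofReal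
    ‖Ψ (kk r (mt z) (cR α) g) * F (mt z) (ac N α x)‖ ∂(hm m) < ⊤ →
    ∫ z in D, ∑' α : ZM m, (if α.det = 0 then
      Ψ (kk r (mt z) (cR α) g) * F (mt z) (ac N α x) else 0) ∂(hm m) = 0

/-- cusp forms are eigenfunctions of `A_r` for rapidly decreasing kernels -/
def T_EGV : Prop := ∀ (m N : ℕ) [NeZero N] (T : ℕ → Finset (ZM m)) (D : Set (V m)),
  SysZ m N T D → ∀ (F : Mat m → VN m N → ℂ) (lam : ℕ → ℂ) (mu : Fin m → ℂ),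
  CuspU m N T F lam mu → ∀ Ψ : Mat m → ℂ, Dec m Ψ →
  ∀ (g : Mat m) (r : ℝ) (x : VN m N), g.det ≠ 0 → 0 < r →
    opAu N Ψ r D F g x = thF 1 Ψ mu lam r * F g x

open Classical in
/-- the operators are adjoint -/
def T_ADH : Prop := ∀ (m N : ℕ) [NeZero N], 1 ≤ m → 2 ≤ N → ∀ D : Set (V m), DomZ m D →
  ∀ (H : VN m N → ZM m) (xv : VN m N → VN m N), Frk m N H xv →
  ∀ Ψ : Mat m → ℂ, Dec m Ψ → ∀ u w : Mat m → VN m N → ℂ,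
  (∀ x, ContinuousOn (fun g => u g x) {g | g.det ≠ 0} ∧
    ContinuousOn (fun g => w g x) {g | g.det ≠ 0}) →
  ∫⁻ z in D, Tht (mt z) * ∑ x : VN m N, ENNReal.ofReal ‖u (mt z) x‖ ∂(hm m) < ⊤ →
  ∫⁻ z in D, Tht (mt z) * ∑ x : VN m N, ENNReal.ofReal ‖w (mt z) x‖ ∂(hm m) < ⊤ →
  (∀ g x, ¬ Pr x → u g x = 0) → ∀ ρ : ℝ, 0 < ρ →
    ∫ g in D, ∫ h in D, ∑ v : VN m N, (if Pr v then w (mt h) v *
      ∑' φ : ZM m, (starRingEnd ℂ) (Ψ (kk ρ (mt g) (cR φ) (cR (H v) * mt h))) *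
        (starRingEnd ℂ) (u (mt g) (ac N φ (xv v))) else 0) ∂(hm m) ∂(hm m) =
    ∫ h in D, ∑ v : VN m N, (if Pr v then w (mt h) v *
      (starRingEnd ℂ) (opAu N Ψ ρ D u (cR (H v) * mt h) (xv v)) else 0) ∂(hm m)

end Pool.Agent.H34.GU
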