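import Pool.Agent.H34.GU.Targets1

/-!
Targets of the board gu, third part: integer matrices of given determinant with bounded rows
(page H16_GN.md).
-/

namespace Pool.Agent.H34.GU

open MeasureTheory Pool.Agent.H34.GM Pool.Agent.H34.GZ

/-- the divisor bound -/
def T_DVB : Prop := ∀ ε : ℝ, 0 < ε → ∃ C : ℝ, 1 ≤ C ∧ ∀ n : ℕ, 1 ≤ n →
  (n.divisors.card : ℝ) ≤ C * (n : ℝ) ^ ε

/-- counting tuples step by step -/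
def T_TUP : Prop := ∀ (α : Type) (m : ℕ) (X : Set (Fin m → α)) (B : Fin m → ℝ), (∀ s, 0 ≤ B s) →
  (∀ s : Fin m, ∀ x ∈ X, {a : α | ∃ y ∈ X, (∀ j, j < s → y j = x j) ∧ y s = a}.Finite ∧
    ({a : α | ∃ y ∈ X, (∀ j, j < s → y j = x j) ∧ y s = a}.ncard : ℝ) ≤ B s) →
  X.Finite ∧ (X.ncard : ℝ) ≤ ∏ s, B s

/-- the contents of the rows modulo the saturated spans of the rows before -/
def T_CTS : Prop := ∀ (m : ℕ) (x : ZM m), x.det ≠ 0 → ∃ d : Fin m → ℕ,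
  ∏ s, d s = x.det.natAbs ∧ ∀ s : Fin m, x s ∉ Lx x s ∧
    ∃ z ∈ Lx x s, ∃ w : Fin m → ℤ, x s = z + (d s : ℤ) • w

/-- the projection orthogonal to the first `s` rows -/
def T_PRJ : Prop := ∀ (m : ℕ), 1 ≤ m → ∀ (b : Mat m) (x : ZM m), b.det ≠ 0 → x.det ≠ 0 →
  ∀ (s : Fin m) (R : ℝ), 0 < R → (∀ j : Fin m, j < s → rowN (vb (x j) b) ≤ R) →
    ∃ P : (Fin m → ℝ) →ₗ[ℝ] (Fin m → ℝ), (∀ v, rowN (P v) ≤ rowN v) ∧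
      (∀ l : Fin m → ℤ, P (vb l b) = 0 ↔ l ∈ Lx x s) ∧
      ∀ l : Fin m → ℤ, ∃ z ∈ Lx x s, rowN (vb (l - z) b) ≤ rowN (P (vb l b)) + m * R

/-- the injection lemma -/
def T_IJL : Prop := ∀ (m : ℕ), 1 ≤ m → ∃ C : ℝ, 1 ≤ C ∧ ∀ (b n : Mat m) (a : Fin m → ℝ) (k : Mat m),
  Sgl b n a k → ∀ x : ZM m, x.det ≠ 0 → ∀ (s : Fin m) (R : ℝ), 0 < R →
  (∀ j : Fin m, j < s → rowN (vb (x j) b) ≤ R) → ∀ e : ℕ, 1 ≤ e →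
    {l : Fin m → ℤ | l ∉ Lx x s ∧ rowN (vb l b) ≤ R ∧
      ∃ z ∈ Lx x s, ∃ w : Fin m → ℤ, l = z + (e : ℤ) • w}.Finite ∧
    (e : ℝ) * ({l : Fin m → ℤ | l ∉ Lx x s ∧ rowN (vb l b) ≤ R ∧
      ∃ z ∈ Lx x s, ∃ w : Fin m → ℤ, l = z + (e : ℤ) • w}.ncard : ℝ) ≤
      C * ({w : Fin m → ℤ | rowN (vb w b) ≤ C * R}.ncard : ℝ)

end Pool.Agent.H34.GU
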